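import Mathlib

/-!
# Cubic fields: an integral generator and the integers

Helper file (helper59) for MP_f2148a_nt.
-/

set_option autoImplicit false

namespace Pool.Agent.K7.H59.HL

open Polynomial IntermediateField Module

/-- an integral generator of a cubic field and a common denominator of the integers -/
theorem exists_gen (L : Type*) [Field L] [NumberField L] (h3 : finrank ℚ L = 3) :
    ∃ (β : L) (δ A B C : ℤ), δ ≠ 0 ∧ (∀ r : ℚ, (r : L) ≠ β) ∧ IsIntegral ℤ β ∧
      β ^ 3 + A * β ^ 2 + B * β + C = 0 ∧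
      ∀ z : L, IsIntegral ℤ z → ∃ a b c : ℤ, (δ : L) * z = a + b * β + c * β ^ 2 := by
  classical
  obtain ⟨α, hα⟩ := Field.exists_primitive_element ℚ L
  have hZ : IsAlgebraic ℤ α :=
    (IsFractionRing.isAlgebraic_iff ℤ ℚ L).2 (Algebra.IsAlgebraic.isAlgebraic α)
  obtain ⟨D, hD0, hD⟩ := hZ.exists_integral_multiple
  rw [zsmul_eq_mul] at hD
  have hDL : (D : L) ≠ 0 := by exact_mod_cast hD0
  set β : L := (D : L) * α with hβ
  have htop : ℚ⟮β⟯ = ⊤ := by
    rw [eq_top_iff, ← hα, adjoin_simple_le_iff]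
    have h1 : β ∈ ℚ⟮β⟯ := mem_adjoin_simple_self ℚ β
    have h2 : (D : L) ∈ ℚ⟮β⟯ := intCast_mem _ D
    have h3 : α = β / D := by rw [hβ]; field_simp
    rw [h3]
    exact div_mem h1 h2
  have hint : IsIntegral ℚ β := hD.tower_top
  have hadj : Algebra.adjoin ℚ {β} = ⊤ := by
    rw [← adjoin_simple_toSubalgebra_of_isAlgebraic hint.isAlgebraic, htop]
    rfl
  set pb := PowerBasis.ofAdjoinEqTop hint hadj with hpb
  have hgen : pb.gen = β := PowerBasis.ofAdjoinEqTop_gen hint hadj
  have hdim : pb.dim = 3 := by rw [← pb.finrank, h3]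
  have hdeg : (minpoly ℚ β).natDegree = 3 := by
    rw [← hgen, pb.natDegree_minpoly, hdim]
  set q := minpoly ℤ β with hq
  have hqm : q.Monic := minpoly.monic hD
  have hmap : minpoly ℚ β = q.map (algebraMap ℤ ℚ) :=
    minpoly.isIntegrallyClosed_eq_field_fractions' ℚ hD
  have hq3 : q.natDegree = 3 := by
    rw [← hdeg, hmap, hqm.natDegree_map]
  have hroot : aeval β q = 0 := minpoly.aeval ℤ β
  have hrel : β ^ 3 + (q.coeff 2 : L) * β ^ 2 + (q.coeff 1 : L) * β + (q.coeff 0 : L) = 0 := by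
    have h1 := hroot
    rw [aeval_eq_sum_range, hq3] at h1
    simp only [Finset.sum_range_succ, Finset.sum_range_zero, zero_add, zsmul_eq_mul] at h1
    have h4 : q.coeff 3 = 1 := by rw [← hq3]; exact hqm.coeff_natDegree
    rw [h4] at h1
    push_cast at h1
    linear_combination h1
  have hgi : IsIntegral ℤ pb.gen := by rw [hgen]; exact hD
  have hdi : IsIntegral ℤ (Algebra.discr ℚ pb.basis) := by
    apply Algebra.discr_isIntegral
    intro i
    rw [pb.basis_eq_pow]
    exact hgi.pow _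
  obtain ⟨δ, hδ⟩ := IsIntegrallyClosed.isIntegral_iff.1 hdi
  have hd0 : Algebra.discr ℚ pb.basis ≠ 0 := Algebra.discr_not_zero_of_basis ℚ pb.basis
  refine ⟨β, δ, q.coeff 2, q.coeff 1, q.coeff 0, ?_, ?_, hD, hrel, ?_⟩
  · intro h
    apply hd0
    rw [← hδ, h, map_zero]
  · intro r hr
    have h1 : (minpoly ℚ β).natDegree = 1 := by
      rw [← hr]
      have h2 : ((r : ℚ) : L) = algebraMap ℚ L r := rfl
      rw [h2, minpoly.eq_X_sub_C]
      exact natDegree_X_sub_C r
    omega
  · intro z hz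
    have h1 := Algebra.discr_mul_isIntegral_mem_adjoin ℚ hgi hz
    rw [hgen, Algebra.adjoin_singleton_eq_range_aeval] at h1
    obtain ⟨P, hP⟩ := h1
    have h2 : aeval β (P %ₘ q) = aeval β P := aeval_modByMonic_eq_self_of_root hroot
    have h5 : (P %ₘ q).natDegree < 3 := by
      rw [← hq3]
      exact natDegree_modByMonic_lt P hqm (by intro h; rw [h] at hq3; simp at hq3)
    refine ⟨(P %ₘ q).coeff 0, (P %ₘ q).coeff 1, (P %ₘ q).coeff 2, ?_⟩
    have h6 : aeval β (P %ₘ q) = (δ : L) * z := by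
      rw [h2]
      have h7 : aeval β P = Algebra.discr ℚ pb.basis • z := hP
      rw [h7, ← hδ, Algebra.smul_def]
      simp
    rw [← h6, aeval_eq_sum_range' h5]
    simp only [Finset.sum_range_succ, Finset.sum_range_zero, zero_add, zsmul_eq_mul]
    ring

end Pool.Agent.K7.H59.HL
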