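import Pool.Agent.K7.H59.HL.A
import Pool.Agent.W472.AC.RothThm

/-!
# The distance of the two close roots of `T³ - 3 x T + 2 y` in a fixed cubic field

Helper file (helper59) for MP_f2148a_nt.
-/

set_option autoImplicit false

namespace Pool.Agent.K7.H59.HL

open Polynomial IntermediateField Module

/-- Vieta's formulas from three different roots -/
theorem three_roots {F : Type*} [Field F] {A B C z z' z'' : F}
    (h : z ^ 3 + A * z ^ 2 + B * z + C = 0) (h' : z' ^ 3 + A * z' ^ 2 + B * z' + C = 0)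
    (h'' : z'' ^ 3 + A * z'' ^ 2 + B * z'' + C = 0) (d1 : z ≠ z') (d2 : z ≠ z'') (d3 : z' ≠ z'') :
    z + z' + z'' = -A ∧ z ^ 2 + z * z' + z' ^ 2 + A * (z + z') + B = 0 := by
  have e1 : z ^ 2 + z * z' + z' ^ 2 + A * (z + z') + B = 0 := by
    have h0 : z - z' ≠ 0 := sub_ne_zero.2 d1
    apply mul_left_cancel₀ h0
    linear_combination h - h'
  have e2 : z ^ 2 + z * z'' + z'' ^ 2 + A * (z + z'') + B = 0 := by
    have h0 : z - z'' ≠ 0 := sub_ne_zero.2 d2
    apply mul_left_cancel₀ h0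
    linear_combination h - h''
  refine ⟨?_, e1⟩
  have h0 : z' - z'' ≠ 0 := sub_ne_zero.2 d3
  apply mul_left_cancel₀ h0
  linear_combination e1 - e2

/-- in a cubic field different embeddings differ at every irrational element -/
theorem emb_inj (L : Type*) [Field L] [NumberField L] (h3 : finrank ℚ L = 3) {z : L}
    (hz : ∀ r : ℚ, (r : L) ≠ z) {σ σ' : L →+* ℂ} (h : σ z = σ' z) : σ = σ' := by
  have := isSimpleOrder_of_finrank_prime ℚ L (by rw [h3]; norm_num)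
  have h1 : ℚ⟮z⟯ = ⊤ := by
    rcases eq_bot_or_eq_top ℚ⟮z⟯ with h2 | h2
    · exfalso
      have h4 : z ∈ (⊥ : IntermediateField ℚ L) := by
        rw [← h2]; exact mem_adjoin_simple_self ℚ z
      obtain ⟨r, hr⟩ := mem_bot.1 h4
      exact hz r hr
    · exact h2
  let S : IntermediateField ℚ L := (RingHom.eqLocusField σ σ').toIntermediateField (fun r => by
    show σ (algebraMap ℚ L r) = σ' (algebraMap ℚ L r)
    simp)
  have h2 : ℚ⟮z⟯ ≤ S := by
    rw [adjoin_simple_le_iff]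
    exact h
  ext w
  have h4 : w ∈ S := by
    apply h2
    rw [h1]
    exact mem_top
  exact h4

theorem exists_two {α : Type*} [Fintype α] [DecidableEq α] (h : Fintype.card α = 3) (a : α) :
    ∃ b c : α, a ≠ b ∧ a ≠ c ∧ b ≠ c := by
  have h1 : (Finset.univ.erase a).card = 2 := by
    rw [Finset.card_erase_of_mem (Finset.mem_univ a), Finset.card_univ, h]
  obtain ⟨b, c, hbc, he⟩ := Finset.card_eq_two.1 h1
  refine ⟨b, c, ?_, ?_, hbc⟩
  · intro hab
    have : b ∈ Finset.univ.erase a := by rw [he]; simp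
    exact (Finset.ne_of_mem_erase this) hab.symm
  · intro hac
    have : c ∈ Finset.univ.erase a := by rw [he]; simp
    exact (Finset.ne_of_mem_erase this) hac.symm

/-- a bound for the complex roots -/
theorem root_bound {x y : ℤ} (hx : 0 < x) (hy : y ^ 2 ≤ 4 * x ^ 3) {t : ℂ}
    (ht : t ^ 3 - 3 * x * t + 2 * y = 0) : ‖t‖ ≤ 3 * Real.sqrt x := by
  set s := Real.sqrt (x : ℝ) with hs
  have hx' : (0 : ℝ) < x := by exact_mod_cast hx
  have hs0 : 0 < s := Real.sqrt_pos.2 hx'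
  have hs2 : s ^ 2 = x := Real.sq_sqrt hx'.le
  by_contra hcon
  push Not at hcon
  have hy' : |(y : ℝ)| ≤ 2 * s ^ 3 := by
    apply abs_le_of_sq_le_sq _ (by positivity)
    have h1 : ((y : ℝ)) ^ 2 ≤ 4 * (x : ℝ) ^ 3 := by exact_mod_cast hy
    calc (y : ℝ) ^ 2 ≤ 4 * (x : ℝ) ^ 3 := h1
      _ = (2 * s ^ 3) ^ 2 := by rw [← hs2]; ring
  have h1 : t ^ 3 = 3 * x * t - 2 * y := by linear_combination ht
  have h2 : ‖t‖ ^ 3 ≤ 3 * x * ‖t‖ + 2 * |(y : ℝ)| := by
    rw [← norm_pow, h1]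
    refine (norm_sub_le _ _).trans ?_
    rw [norm_mul, norm_mul, norm_mul]
    have e1 : ‖(x : ℂ)‖ = x := by
      rw [Complex.norm_intCast, abs_of_pos hx']
    have e2 : ‖(y : ℂ)‖ = |(y : ℝ)| := by
      rw [Complex.norm_intCast]
    rw [e1, e2]
    norm_num
  rw [← hs2] at h2
  nlinarith [mul_pos hs0 hs0, mul_pos (mul_pos hs0 hs0) hs0,
    mul_lt_mul'' hcon hcon (by positivity) (by positivity), norm_nonneg t]

/-- **Lower bound for the distance of the two close roots** -/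
theorem cubic_bound (L : Type*) [Field L] [NumberField L] (h3 : finrank ℚ L = 3) (ρ : L →+* ℝ)
    (η : ℝ) (hη : 0 < η) : ∃ C : ℝ, ∀ x y : ℤ, 0 < x → y ^ 2 ≤ 4 * x ^ 3 →
      ∀ τ : L, (∀ r : ℚ, (r : L) ≠ τ) → τ ^ 3 - 3 * x * τ + 2 * y = 0 →
        1 ≤ C * (x : ℝ) ^ (1 + η) * |12 * (x : ℝ) - 3 * (ρ τ) ^ 2| := by
  classical
  obtain ⟨β, δ, A, B, C0, hδ, hβ, hβi, hrel, hint⟩ := exists_gen L h3
  have hcard : Fintype.card (L →+* ℂ) = 3 := by rw [NumberField.Embeddings.card, h3]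
  set ι : L →+* ℂ := (algebraMap ℝ ℂ).comp ρ with hι
  obtain ⟨σ, σ', n1, n2, n3⟩ := exists_two hcard ι
  -- the conjugates of the generator
  have hr : ∀ f : L →+* ℂ, (f β) ^ 3 + (A : ℂ) * (f β) ^ 2 + (B : ℂ) * (f β) + (C0 : ℂ) = 0 := by
    intro f
    have := congrArg f hrel
    simpa using this
  have hw := three_roots (hr ι) (hr σ) (hr σ') (fun h => n1 (emb_inj L h3 hβ h))
    (fun h => n2 (emb_inj L h3 hβ h)) (fun h => n3 (emb_inj L h3 hβ h))
  have hsum := hw.1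
  set ω : ℝ := ρ β with hω
  have hιβ : ι β = (ω : ℂ) := rfl
  have hirr : Irrational ω := by
    rintro ⟨r, hr'⟩
    apply hβ r
    apply ρ.injective
    rw [map_ratCast]
    exact hr'
  have halg : IsAlgebraic ℚ ω := by
    have h1 : IsIntegral ℤ ω := hβi.map (ρ : L →+* ℝ).toIntAlgHom
    exact (h1.tower_top (A := ℚ)).isAlgebraic
  obtain ⟨c0, hc0, hroth⟩ := Pool.Agent.W472.AC.roth ω halg hirr (η / 2) (by positivity)
  -- constants
  have hd12 : ι β ≠ σ β := fun h => n1 (emb_inj L h3 hβ h)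
  have hd13 : ι β ≠ σ' β := fun h => n2 (emb_inj L h3 hβ h)
  have hd23 : σ β ≠ σ' β := fun h => n3 (emb_inj L h3 hβ h)
  set a12 : ℝ := ‖ι β - σ β‖ with ha12
  set a13 : ℝ := ‖ι β - σ' β‖ with ha13
  set a23 : ℝ := ‖σ β - σ' β‖ with ha23
  have p12 : 0 < a12 := norm_pos_iff.2 (sub_ne_zero.2 hd12)
  have p13 : 0 < a13 := norm_pos_iff.2 (sub_ne_zero.2 hd13)
  have p23 : 0 < a23 := norm_pos_iff.2 (sub_ne_zero.2 hd23)
  have pδ : (1 : ℝ) ≤ |(δ : ℝ)| := by exact_mod_cast Int.one_le_abs hδ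
  set C1 : ℝ := |(δ : ℝ)| * (6 * (a12 + a13)) / (a12 * a13 * a23) with hC1
  have pC1 : 0 < C1 := by positivity
  set C2 : ℝ := 1 + C1 with hC2
  set c1 : ℝ := min 1 c0 with hc1
  have pc1 : 0 < c1 := lt_min one_pos hc0
  set C3 : ℝ := (C2 ^ (1 + η / 2) * |(δ : ℝ)| / (a23 * c1)) ^ 2 with hC3
  refine ⟨C3, fun x y hx hy τ hτ hp => ?_⟩
  have hx' : (1 : ℝ) ≤ x := by exact_mod_cast hx
  -- `τ` is integral
  have hτi : IsIntegral ℤ τ := by
    refine ⟨X ^ 3 + (C (-3 * x) * X + C (2 * y)), ?_, ?_⟩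
    · apply monic_X_pow_add
      refine (degree_add_le _ _).trans_lt ?_
      refine max_lt ?_ ?_
      · exact (degree_C_mul_X_le _).trans_lt (by norm_num)
      · exact degree_C_le.trans_lt (by norm_num)
    · rw [eval₂_add, eval₂_add, eval₂_mul, eval₂_pow, eval₂_X, eval₂_C, eval₂_C]
      simp only [algebraMap_int_eq, eq_intCast]
      push_cast
      linear_combination hp
  obtain ⟨a, b, c, habc⟩ := hint τ hτi
  have hpf : ∀ f : L →+* ℂ, (f τ) ^ 3 + (0 : ℂ) * (f τ) ^ 2 + (-3 * x : ℂ) * (f τ) + (2 * y : ℂ) = 0 := by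
    intro f
    have := congrArg f hp
    simp only [map_add, map_sub, map_mul, map_pow, map_intCast, map_zero, map_ofNat] at this
    linear_combination this
  have hτ1 := three_roots (hpf ι) (hpf σ) (hpf σ') (fun h => n1 (emb_inj L h3 hτ h))
    (fun h => n2 (emb_inj L h3 hτ h)) (fun h => n3 (emb_inj L h3 hτ h))
  have hf : ∀ f : L →+* ℂ, (δ : ℂ) * f τ = a + b * f β + c * (f β) ^ 2 := by
    intro f
    have := congrArg f habc
    simpa using this
  set t : ℝ := ρ τ with ht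
  have hιτ : ι τ = (t : ℂ) := rfl
  -- the identity for the close roots
  have key : (σ τ - σ' τ) ^ 2 = 12 * (x : ℂ) - 3 * (t : ℂ) ^ 2 := by
    have e1 := hτ1.1
    have e2 := hτ1.2
    rw [hιτ] at e1 e2
    have e3 : σ' τ = -(t : ℂ) - σ τ := by linear_combination e1
    rw [e3]
    linear_combination 4 * e2
  have diff : (δ : ℂ) * (σ τ - σ' τ) = (σ β - σ' β) * (b - c * A - c * ω) := by
    have e1 := hf σ
    have e2 := hf σ'
    rw [hιβ] at hsum
    have e3 : σ β + σ' β = -(A : ℂ) - ω := by linear_combination hsum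
    have e4 : (δ : ℂ) * (σ τ - σ' τ) = (σ β - σ' β) * (b + c * (σ β + σ' β)) := by
      linear_combination e1 - e2
    rw [e4, e3]
    ring
  have hnorm : |(δ : ℝ)| * ‖σ τ - σ' τ‖ = a23 * |(b : ℝ) - c * A - c * ω| := by
    have := congrArg norm diff
    rw [norm_mul, norm_mul, Complex.norm_intCast] at this
    rw [this, ha23]
    congr 1
    have : ((b : ℂ) - c * A - c * ω) = (((b : ℝ) - c * A - c * ω : ℝ) : ℂ) := by push_cast; ring
    rw [this, Complex.norm_real, Real.norm_eq_abs]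
  have hsq : ‖σ τ - σ' τ‖ ^ 2 = |12 * (x : ℝ) - 3 * t ^ 2| := by
    rw [← norm_pow, key]
    have : (12 * (x : ℂ) - 3 * (t : ℂ) ^ 2) = ((12 * (x : ℝ) - 3 * t ^ 2 : ℝ) : ℂ) := by push_cast; ring
    rw [this, Complex.norm_real, Real.norm_eq_abs]
  -- the size of `c`
  have hrb : ∀ f : L →+* ℂ, ‖f τ‖ ≤ 3 * Real.sqrt x := by
    intro f
    apply root_bound hx hy
    have := hpf f
    linear_combination this
  set s := Real.sqrt (x : ℝ) with hs
  have hs1 : 1 ≤ s := by rw [hs]; exact Real.one_le_sqrt.2 hx'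
  have hcb : |(c : ℝ)| ≤ C1 * s := by
    have e1 := hf ι
    have e2 := hf σ
    have e3 := hf σ'
    have e4 : (c : ℂ) * ((ι β - σ β) * (ι β - σ' β) * (σ β - σ' β)) =
        (δ : ℂ) * ((ι τ - σ τ) * (ι β - σ' β) - (ι τ - σ' τ) * (ι β - σ β)) := by
      linear_combination (ι β - σ' β) * (e2 - e1) - (ι β - σ β) * (e3 - e1)
    have e5 := congrArg norm e4
    rw [norm_mul, norm_mul, norm_mul, norm_mul, Complex.norm_intCast, Complex.norm_intCast,
      ← ha12, ← ha13, ← ha23] at e5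
    have e6 : ‖(ι τ - σ τ) * (ι β - σ' β) - (ι τ - σ' τ) * (ι β - σ β)‖ ≤ 6 * s * (a12 + a13) := by
      refine (norm_sub_le _ _).trans ?_
      rw [norm_mul, norm_mul, ← ha12, ← ha13]
      have f1 : ‖ι τ - σ τ‖ ≤ 6 * s := (norm_sub_le _ _).trans (by linarith [hrb ι, hrb σ])
      have f2 : ‖ι τ - σ' τ‖ ≤ 6 * s := (norm_sub_le _ _).trans (by linarith [hrb ι, hrb σ'])
      nlinarith
    rw [hC1, div_mul_eq_mul_div, le_div_iff₀ (by positivity)]
    calc |(c : ℝ)| * (a12 * a13 * a23) = |(δ : ℝ)| * ‖(ι τ - σ τ) * (ι β - σ' β) - (ι τ - σ' τ) * (ι β - σ β)‖ := e5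
      _ ≤ |(δ : ℝ)| * (6 * s * (a12 + a13)) := by
        apply mul_le_mul_of_nonneg_left e6 (abs_nonneg _)
      _ = _ := by ring
  -- Roth
  have hroth2 : c1 ≤ (C2 * s) ^ (1 + η / 2) * |(b : ℝ) - c * A - c * ω| := by
    have hC2s : 1 ≤ C2 * s := by nlinarith
    by_cases hc : c = 0
    · have hb : b ≠ 0 := by
        intro hb
        apply hτ ((a : ℚ) / δ)
        have hδL : (δ : L) ≠ 0 := by exact_mod_cast hδ
        rw [hb, hc] at habc
        push_cast at habc ⊢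
        rw [div_eq_iff hδL]
        linear_combination -habc
      rw [hc]
      simp only [Int.cast_zero, zero_mul, sub_zero]
      have h1 : (1 : ℝ) ≤ |(b : ℝ)| := by exact_mod_cast Int.one_le_abs hb
      have h2 : 1 ≤ (C2 * s) ^ (1 + η / 2) := Real.one_le_rpow hC2s (by positivity)
      calc c1 ≤ 1 := min_le_left _ _
        _ ≤ _ := by nlinarith
    · have hq : 1 ≤ c.natAbs := Nat.one_le_iff_ne_zero.2 (Int.natAbs_ne_zero.2 hc)
      have h1 := hroth c.natAbs hq (c.sign * (b - c * A))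
      have e1 : ((c.natAbs : ℕ) : ℝ) = |(c : ℝ)| := by
        rw [← Int.cast_abs, Int.abs_eq_natAbs, Int.cast_natCast]
      have e2 : |(c : ℝ)| * ω - ((c.sign * (b - c * A) : ℤ) : ℝ) =
          -((c.sign : ℝ) * ((b : ℝ) - c * A - c * ω)) := by
        have e3 : |(c : ℝ)| = (c.sign : ℝ) * c := by
          rw [← Int.cast_abs, ← Int.cast_mul, Int.sign_mul_self_eq_abs]
        rw [e3]
        push_cast
        ring
      have e4 : |((c.sign : ℤ) : ℝ)| = 1 := by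
        rcases lt_or_gt_of_ne hc with h5 | h5
        · rw [Int.sign_eq_neg_one_of_neg h5]; simp
        · rw [Int.sign_eq_one_of_pos h5]; simp
      rw [e1, e2, abs_neg, abs_mul, e4, one_mul] at h1
      refine (min_le_right _ _).trans (h1.trans ?_)
      apply mul_le_mul_of_nonneg_right _ (abs_nonneg _)
      apply Real.rpow_le_rpow (abs_nonneg _) _ (by positivity)
      nlinarith
  -- conclusion
  have hfin : c1 * a23 ≤ (C2 * s) ^ (1 + η / 2) * |(δ : ℝ)| * ‖σ τ - σ' τ‖ := by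
    calc c1 * a23 ≤ ((C2 * s) ^ (1 + η / 2) * |(b : ℝ) - c * A - c * ω|) * a23 :=
          mul_le_mul_of_nonneg_right hroth2 p23.le
      _ = (C2 * s) ^ (1 + η / 2) * (a23 * |(b : ℝ) - c * A - c * ω|) := by ring
      _ = (C2 * s) ^ (1 + η / 2) * (|(δ : ℝ)| * ‖σ τ - σ' τ‖) := by rw [hnorm]
      _ = _ := by ring
  have hpow : (C2 * s) ^ (1 + η / 2) = C2 ^ (1 + η / 2) * s ^ (1 + η / 2) :=
    Real.mul_rpow (by positivity) (by positivity)
  rw [hpow] at hfin
  have hs3 : (s ^ (1 + η / 2)) ^ 2 ≤ (x : ℝ) ^ (1 + η) := by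
    rw [← Real.rpow_natCast, ← Real.rpow_mul (by positivity), hs, Real.sqrt_eq_rpow,
      ← Real.rpow_mul (by positivity)]
    apply Real.rpow_le_rpow_of_exponent_le hx'
    push_cast
    linarith
  have h7 : 1 ≤ (C2 ^ (1 + η / 2) * |(δ : ℝ)| / (a23 * c1)) * s ^ (1 + η / 2) * ‖σ τ - σ' τ‖ := by
    rw [div_mul_eq_mul_div, div_mul_eq_mul_div, le_div_iff₀ (by positivity)]
    linarith
  have h8 : (1 : ℝ) ≤ ((C2 ^ (1 + η / 2) * |(δ : ℝ)| / (a23 * c1)) * s ^ (1 + η / 2) * ‖σ τ - σ' τ‖) ^ 2 :=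
    one_le_pow₀ h7
  calc (1 : ℝ) ≤ _ := h8
    _ = C3 * (s ^ (1 + η / 2)) ^ 2 * ‖σ τ - σ' τ‖ ^ 2 := by rw [hC3]; ring
    _ = C3 * (s ^ (1 + η / 2)) ^ 2 * |12 * (x : ℝ) - 3 * t ^ 2| := by rw [hsq]
    _ ≤ C3 * (x : ℝ) ^ (1 + η) * |12 * (x : ℝ) - 3 * t ^ 2| := by
      apply mul_le_mul_of_nonneg_right _ (abs_nonneg _)
      apply mul_le_mul_of_nonneg_left hs3
      rw [hC3]; positivity

end Pool.Agent.K7.H59.HL
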