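import Pool.Agent.K7.H59.HL.B

/-!
# Integral points in the image of the isogeny of degree three

Helper file (helper59) for MP_f2148a_nt.
-/

set_option autoImplicit false

namespace Pool.Agent.K7.H59.HL

open Polynomial IntermediateField Module

/-- the bound for a reducible cubic -/
theorem int_root {k x y t : ℤ} (hk : k ≠ 0) (hE : y ^ 2 = x ^ 3 + k)
    (ht : t ^ 3 - 3 * x * t + 2 * y = 0) : |x| ≤ 2 * |k| := by
  obtain ⟨u, hu⟩ : ∃ u, u = x - t ^ 2 := ⟨_, rfl⟩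
  have hx : x = t ^ 2 + u := by rw [hu]; ring
  have h4 : 4 * k = -(u ^ 2 * (3 * t ^ 2 + 4 * u)) := by
    have h2 : 2 * y = 3 * x * t - t ^ 3 := by linear_combination ht
    have h3 : 4 * k = (2 * y) ^ 2 - 4 * x ^ 3 := by linear_combination -4 * hE
    rw [h3, h2, hx]
    ring
  have hu0 : u ≠ 0 := by
    rintro rfl
    apply hk
    have : 4 * k = 0 := by rw [h4]; ring
    omega
  have hv0 : 3 * t ^ 2 + 4 * u ≠ 0 := by
    intro h
    apply hk
    have : 4 * k = 0 := by rw [h4, h]; ring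
    omega
  obtain ⟨v, hv⟩ : ∃ v, v = 3 * t ^ 2 + 4 * u := ⟨_, rfl⟩
  rw [← hv] at h4 hv0
  have hu1 : 1 ≤ |u| := Int.one_le_abs hu0
  have hv1 : 1 ≤ |v| := Int.one_le_abs hv0
  have hk1 : 1 ≤ |k| := Int.one_le_abs hk
  have h5 : 4 * |k| = |u| ^ 2 * |v| := by
    have := congrArg abs h4
    rw [abs_mul, abs_neg, abs_mul, abs_pow] at this
    simpa using this
  have hu2 : 1 ≤ |u| ^ 2 := by nlinarith
  have h6 : |v| ≤ 4 * |k| := by nlinarith
  have h7 : |u| ≤ 2 * |k| := by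
    have : |u| ^ 2 ≤ 4 * |k| := by nlinarith
    nlinarith
  have h8 : 3 * x = v - u := by rw [hv, hx]; ring
  have h9 : |3 * x| ≤ |v| + |u| := by rw [h8]; exact abs_sub v u
  rw [abs_mul] at h9
  have : |(3 : ℤ)| = 3 := by norm_num
  rw [this] at h9
  omega

/-- a real root far from zero -/
theorem real_root_aux {x y : ℤ} (hx : 0 < x) (hy : y ≤ 0) :
    ∃ t : ℝ, 3 * x ≤ t ^ 2 ∧ t ^ 3 - 3 * x * t + 2 * y = 0 := by
  have hx' : (0 : ℝ) < x := by exact_mod_cast hx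
  have hx1 : (1 : ℝ) ≤ x := by exact_mod_cast hx
  have hy' : (y : ℝ) ≤ 0 := by exact_mod_cast hy
  set s := Real.sqrt (3 * (x : ℝ)) with hs
  have hs0 : 0 ≤ s := Real.sqrt_nonneg _
  have hs2 : s ^ 2 = 3 * x := Real.sq_sqrt (by positivity)
  obtain ⟨M, hM⟩ : ∃ M : ℝ, M = 3 * x + 2 * (-y) + 1 := ⟨_, rfl⟩
  have hM1 : 1 ≤ M := by rw [hM]; nlinarith
  have hsM : s ≤ M := by
    apply le_of_sq_le_sq _ (by linarith)
    rw [hs2]
    nlinarith
  obtain ⟨t, ht, hf⟩ := intermediate_value_Icc hsM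
    (f := fun T : ℝ => T ^ 3 - 3 * x * T + 2 * y) (by fun_prop)
    (show (0 : ℝ) ∈ Set.Icc _ _ from ⟨by
      show s ^ 3 - 3 * x * s + 2 * y ≤ 0
      have : s ^ 3 = 3 * x * s := by rw [pow_succ, hs2]
      linarith, by
      show 0 ≤ M ^ 3 - 3 * x * M + 2 * y
      have h1 : 2 * (-(y : ℝ)) + 1 ≤ M ^ 2 - 3 * x := by nlinarith
      have h2 : 2 * (-(y : ℝ)) + 1 ≤ M * (M ^ 2 - 3 * x) := by nlinarith
      nlinarith⟩)
  refine ⟨t, ?_, hf⟩
  rw [← hs2]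
  exact pow_le_pow_left₀ hs0 ht.1 2

theorem real_root {x y : ℤ} (hx : 0 < x) :
    ∃ t : ℝ, 3 * x ≤ t ^ 2 ∧ t ^ 3 - 3 * x * t + 2 * y = 0 := by
  rcases le_total y 0 with hy | hy
  · exact real_root_aux hx hy
  · obtain ⟨t, h1, h2⟩ := real_root_aux hx (y := -y) (by omega)
    refine ⟨-t, by linarith [h1, show (-t) ^ 2 = t ^ 2 by ring], ?_⟩
    push_cast at h2
    linear_combination -h2

/-- `E_{-27 k}(K) → E_k(K)` -/
def Image (K : Type*) [Field K] (k x y : ℤ) : Prop :=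
  ∃ X Y : K, X ≠ 0 ∧ Y ^ 2 = X ^ 3 - 27 * k ∧ 9 * X ^ 2 * x = X ^ 3 - 108 * k ∧
    27 * X ^ 3 * y = Y * (X ^ 3 + 216 * k)

theorem Image.root {K : Type*} [Field K] [CharZero K] {k x y : ℤ} (h : Image K k x y) :
    ∃ τ : K, τ ^ 3 - 3 * x * τ + 2 * y = 0 := by
  obtain ⟨X, Y, hX, h1, h2, h3⟩ := h
  refine ⟨-(2 * Y) / (3 * X), ?_⟩
  have h27 : (27 : K) * X ^ 3 ≠ 0 := mul_ne_zero (by norm_num) (pow_ne_zero 3 hX)
  apply mul_left_cancel₀ h27
  have e : 27 * X ^ 3 * ((-(2 * Y) / (3 * X)) ^ 3 - 3 * x * (-(2 * Y) / (3 * X)) + 2 * y) =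
      -8 * Y ^ 3 + 54 * x * Y * X ^ 2 + 54 * y * X ^ 3 := by
    field_simp
    ring
  rw [e]
  linear_combination 6 * Y * h2 + 2 * h3 - 8 * Y * h1

/-- the image over the rational numbers, or any root in the rational numbers -/
theorem rat_root {k x y : ℤ} (hk : k ≠ 0) (hE : y ^ 2 = x ^ 3 + k) {r : ℚ}
    (hr : r ^ 3 - 3 * x * r + 2 * y = 0) : |x| ≤ 2 * |k| := by
  have hi : IsIntegral ℤ r := by
    refine ⟨X ^ 3 + (C (-3 * x) * X + C (2 * y)), ?_, ?_⟩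
    · apply monic_X_pow_add
      refine (degree_add_le _ _).trans_lt ?_
      refine max_lt ?_ ?_
      · exact (degree_C_mul_X_le _).trans_lt (by norm_num)
      · exact degree_C_le.trans_lt (by norm_num)
    · rw [eval₂_add, eval₂_add, eval₂_mul, eval₂_pow, eval₂_X, eval₂_C, eval₂_C]
      simp only [algebraMap_int_eq, eq_intCast]
      push_cast
      linear_combination hr
  obtain ⟨t, ht⟩ := IsIntegrallyClosed.isIntegral_iff.1 hi
  have ht' : r = (t : ℚ) := by rw [← ht]; simp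
  rw [ht'] at hr
  exact int_root hk hE (t := t) (by exact_mod_cast hr)

theorem y_bound {k x y : ℤ} (hk : k ≠ 0) (hE : y ^ 2 = x ^ 3 + k) (hx : |x| ≤ 2 * |k|) :
    y ^ 2 ≤ 9 * |k| ^ 3 := by
  have hk1 : 1 ≤ |k| := Int.one_le_abs hk
  have h1 : x ^ 3 ≤ |x| ^ 3 := by rw [← abs_pow]; exact le_abs_self _
  have h2 : |x| ^ 3 ≤ (2 * |k|) ^ 3 := pow_le_pow_left₀ (abs_nonneg _) hx 3
  have h3 : k ≤ |k| := le_abs_self _
  have h4 : |k| ≤ |k| ^ 3 := by nlinarith [mul_le_mul hk1 hk1 zero_le_one (abs_nonneg k)]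
  rw [hE]
  nlinarith

/-- the cubic has no rational root: it is the minimal polynomial of its roots -/
theorem irr {x y : ℤ} (h : ∀ r : ℚ, r ^ 3 - 3 * x * r + 2 * y ≠ 0) :
    Irreducible (X ^ 3 + (C (-3 * (x : ℚ)) * X + C (2 * (y : ℚ))) : ℚ[X]) ∧
    (X ^ 3 + (C (-3 * (x : ℚ)) * X + C (2 * (y : ℚ))) : ℚ[X]).Monic ∧
    (X ^ 3 + (C (-3 * (x : ℚ)) * X + C (2 * (y : ℚ))) : ℚ[X]).natDegree = 3 := by
  have hd : (C (-3 * (x : ℚ)) * X + C (2 * (y : ℚ)) : ℚ[X]).degree < 3 := by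
    refine (degree_add_le _ _).trans_lt ?_
    refine max_lt ?_ ?_
    · exact (degree_C_mul_X_le _).trans_lt (by norm_num)
    · exact degree_C_le.trans_lt (by norm_num)
  have hm : (X ^ 3 + (C (-3 * (x : ℚ)) * X + C (2 * (y : ℚ))) : ℚ[X]).Monic := monic_X_pow_add hd
  have hn : (X ^ 3 + (C (-3 * (x : ℚ)) * X + C (2 * (y : ℚ))) : ℚ[X]).natDegree = 3 := by
    have : (X ^ 3 + (C (-3 * (x : ℚ)) * X + C (2 * (y : ℚ))) : ℚ[X]).degree = 3 := by
      rw [degree_add_eq_left_of_degree_lt]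
      · exact degree_X_pow 3
      · rw [degree_X_pow]; exact hd
    exact natDegree_eq_of_degree_eq_some this
  refine ⟨?_, hm, hn⟩
  rw [Monic.irreducible_iff_roots_eq_zero_of_degree_le_three hm (by omega) (by omega),
    Multiset.eq_zero_iff_forall_notMem]
  intro r hr
  have h1 := (mem_roots'.1 hr).2
  apply h r
  rw [IsRoot.def, eval_add, eval_add, eval_mul, eval_pow, eval_X, eval_C, eval_C] at h1
  linear_combination h1

/-- the estimate for all points whose cubic has no rational root but a root in `K` -/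
theorem irr_bound (K : Type*) [Field K] [NumberField K] (η : ℝ) (hη : 0 < η) :
    ∃ C : ℝ, ∀ k x y : ℤ, k ≠ 0 → y ^ 2 = x ^ 3 + k → 2 * |k| < |x| →
      (∀ r : ℚ, r ^ 3 - 3 * x * r + 2 * y ≠ 0) → (∃ τ : K, τ ^ 3 - 3 * x * τ + 2 * y = 0) →
        0 < x ∧ (x : ℝ) ≤ C * (x : ℝ) ^ η * |(k : ℝ)| := by
  classical
  have hfin : Finite (IntermediateField ℚ K) :=
    Field.finite_intermediateField_of_exists_primitive_element ℚ K
      (Field.exists_primitive_element ℚ K)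
  have key : ∀ i : (Σ L : IntermediateField ℚ K, (L →ₐ[ℚ] ℝ)), ∃ C : ℝ, finrank ℚ i.1 = 3 →
      ∀ x y : ℤ, 0 < x → y ^ 2 ≤ 4 * x ^ 3 →
      ∀ τ : i.1, (∀ r : ℚ, (r : i.1) ≠ τ) → τ ^ 3 - 3 * x * τ + 2 * y = 0 →
        1 ≤ C * (x : ℝ) ^ (1 + η) * |12 * (x : ℝ) - 3 * (i.2 τ) ^ 2| := by
    rintro ⟨L, ρ⟩
    by_cases h3 : finrank ℚ L = 3
    · obtain ⟨C, hC⟩ := cubic_bound L h3 (ρ : L →+* ℝ) η hη
      exact ⟨C, fun _ => hC⟩
    · exact ⟨0, fun h => absurd h h3⟩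
  choose Cf hCf using key
  obtain ⟨C, hC⟩ := (Set.finite_range Cf).bddAbove
  refine ⟨3 * C, fun k x y hk hE hxk hirr hτ => ?_⟩
  have hk1 : 1 ≤ |k| := Int.one_le_abs hk
  -- sizes
  have hx0 : 0 < x := by
    by_contra hcon
    push Not at hcon
    have h1 : |x| = -x := abs_of_nonpos hcon
    have h2 : 0 ≤ x ^ 3 + k := by rw [← hE]; positivity
    have h3 : k ≤ |k| := le_abs_self k
    have h4 : (-x) ^ 3 ≤ |k| := by nlinarith
    have h5 : 2 * |k| + 1 ≤ -x := by omega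
    have h6 : (2 * |k| + 1) ^ 3 ≤ (-x) ^ 3 := pow_le_pow_left₀ (by positivity) h5 3
    nlinarith [sq_nonneg (|k|)]
  have hxk' : 2 * |k| < x := by rwa [abs_of_pos hx0] at hxk
  have hy4 : y ^ 2 ≤ 4 * x ^ 3 := by
    rw [hE]
    have h3 : k ≤ |k| := le_abs_self k
    have h4 : x ≤ x ^ 3 := by nlinarith [mul_le_mul (show (1 : ℤ) ≤ x by omega) (show (1 : ℤ) ≤ x by omega) zero_le_one (by omega)]
    nlinarith
  refine ⟨hx0, ?_⟩
  have hx' : (0 : ℝ) < x := by exact_mod_cast hx0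
  obtain ⟨τ, hτ⟩ := hτ
  obtain ⟨hI, hM, hN⟩ := irr hirr
  have hτi : IsIntegral ℚ τ := Algebra.IsIntegral.isIntegral τ
  have hmin : minpoly ℚ τ = (X ^ 3 + (Polynomial.C (-3 * (x : ℚ)) * X + Polynomial.C (2 * (y : ℚ))) : ℚ[X]) := by
    symm
    apply minpoly.eq_of_irreducible_of_monic hI _ hM
    simp only [map_add, map_mul, map_pow, aeval_X, aeval_C]
    simp only [map_mul, map_neg, map_ofNat, map_intCast, eq_ratCast]
    linear_combination hτ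
  obtain ⟨t, ht1, ht2⟩ := real_root hx0 (y := y)
  set pb := adjoin.powerBasis hτi with hpb
  have hgen : pb.gen = AdjoinSimple.gen ℚ τ := adjoin.powerBasis_gen hτi
  have hmg : minpoly ℚ pb.gen = minpoly ℚ τ := by rw [hgen]; exact minpoly_gen ℚ τ
  have hroot : aeval t (minpoly ℚ pb.gen) = 0 := by
    rw [hmg, hmin]
    simp only [map_add, map_mul, map_pow, aeval_X, aeval_C]
    simp only [map_mul, map_neg, map_ofNat, map_intCast, eq_ratCast]
    linear_combination ht2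
  set ρ : ℚ⟮τ⟯ →ₐ[ℚ] ℝ := pb.lift t hroot with hρ
  have hρt : ρ (AdjoinSimple.gen ℚ τ) = t := by
    rw [← hgen, hρ]; exact pb.lift_gen t hroot
  have hfr : finrank ℚ ℚ⟮τ⟯ = 3 := by
    rw [adjoin.finrank hτi, hmin, hN]
  have h1 := hCf ⟨ℚ⟮τ⟯, ρ⟩ hfr x y hx0 hy4 (AdjoinSimple.gen ℚ τ) ?_ ?_
  · rw [show (⟨ℚ⟮τ⟯, ρ⟩ : Σ L : IntermediateField ℚ K, (L →ₐ[ℚ] ℝ)).2 (AdjoinSimple.gen ℚ τ) = t from hρt] at h1
    have hCi : Cf ⟨ℚ⟮τ⟯, ρ⟩ ≤ C := hC ⟨_, rfl⟩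
    have h2 : 1 ≤ C * (x : ℝ) ^ (1 + η) * |12 * (x : ℝ) - 3 * t ^ 2| := by
      refine h1.trans ?_
      apply mul_le_mul_of_nonneg_right _ (abs_nonneg _)
      exact mul_le_mul_of_nonneg_right hCi (by positivity)
    -- the identity
    have h4 : 4 * (k : ℝ) = (t ^ 2 - 4 * x) * (x - t ^ 2) ^ 2 := by
      have h5 : 2 * (y : ℝ) = 3 * x * t - t ^ 3 := by linear_combination ht2
      have h6 : (k : ℝ) = (y : ℝ) ^ 2 - (x : ℝ) ^ 3 := by
        have : (y : ℝ) ^ 2 = (x : ℝ) ^ 3 + k := by exact_mod_cast hE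
        linear_combination -this
      have h7 : 4 * (k : ℝ) = (2 * (y : ℝ)) ^ 2 - 4 * (x : ℝ) ^ 3 := by rw [h6]; ring
      rw [h7, h5]
      ring
    have h5 : |12 * (x : ℝ) - 3 * t ^ 2| * (x : ℝ) ^ 2 ≤ 3 * |(k : ℝ)| := by
      have h6 : 4 * |(k : ℝ)| = |t ^ 2 - 4 * x| * (x - t ^ 2) ^ 2 := by
        have := congrArg abs h4
        rw [abs_mul, abs_mul, abs_pow, sq_abs] at this
        simpa using this
      have h7 : |12 * (x : ℝ) - 3 * t ^ 2| = 3 * |t ^ 2 - 4 * x| := by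
        rw [show 12 * (x : ℝ) - 3 * t ^ 2 = -(3 * (t ^ 2 - 4 * x)) by ring, abs_neg, abs_mul]
        norm_num
      rw [h7]
      have h8 : 4 * (x : ℝ) ^ 2 ≤ (x - t ^ 2) ^ 2 := by nlinarith
      nlinarith [mul_le_mul_of_nonneg_left h8 (abs_nonneg (t ^ 2 - 4 * (x : ℝ)))]
    have hC0 : 0 ≤ C := by
      by_contra hcon
      push Not at hcon
      have h6 : C * (x : ℝ) ^ (1 + η) * |12 * (x : ℝ) - 3 * t ^ 2| ≤ 0 := by
        have : 0 ≤ (x : ℝ) ^ (1 + η) * |12 * (x : ℝ) - 3 * t ^ 2| := by positivity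
        nlinarith
      linarith
    have h9 : (x : ℝ) ^ (1 + η) = x * (x : ℝ) ^ η := by
      rw [Real.rpow_add hx', Real.rpow_one]
    have h10 : (x : ℝ) * 1 ≤ x * (C * (x : ℝ) ^ (1 + η) * |12 * (x : ℝ) - 3 * t ^ 2|) :=
      mul_le_mul_of_nonneg_left h2 hx'.le
    rw [mul_one, h9] at h10
    calc (x : ℝ) ≤ _ := h10
      _ = C * (x : ℝ) ^ η * (|12 * (x : ℝ) - 3 * t ^ 2| * (x : ℝ) ^ 2) := by ring
      _ ≤ C * (x : ℝ) ^ η * (3 * |(k : ℝ)|) := by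
        apply mul_le_mul_of_nonneg_left h5
        positivity
      _ = _ := by ring
  · intro r hr
    apply hirr r
    have h2 : ((r : ℚ) : K) = τ := by
      have := congrArg (fun z : ℚ⟮τ⟯ => (z : K)) hr
      simpa using this
    have h3 : ((r ^ 3 - 3 * x * r + 2 * y : ℚ) : K) = 0 := by
      push_cast
      rw [h2]
      exact hτ
    exact_mod_cast h3
  · apply Subtype.ext
    push_cast
    simp only [AdjoinSimple.coe_gen]
    exact hτ

end Pool.Agent.K7.H59.HL
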