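import Pool.Agent.K7.H59.HL.C

/-!
# Multiplication by three on the curves `y² = x³ + k`

Helper file (helper59) for MP_f2148a_nt.
-/

set_option autoImplicit false

namespace Pool.Agent.K7.H59.HL

open WeierstrassCurve

/-- the curve `y ^ 2 = x ^ 3 + k` over `K` -/
def Cv (K : Type*) [Field K] (k : ℤ) : WeierstrassCurve.Affine K := ⟨0, 0, 0, 0, k⟩

section

variable {K : Type*} [Field K]

lemma Cv_negY (k : ℤ) (x y : K) : (Cv K k).negY x y = -y := by
  simp [Affine.negY, Cv]

lemma Cv_eq (k : ℤ) {x y : K} (h : (Cv K k).Nonsingular x y) : y ^ 2 = x ^ 3 + k := by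
  have := (Affine.equation_iff x y).1 h.1
  simpa [Cv] using this

lemma Cv_nonsingular [CharZero K] (k : ℤ) (hk : k ≠ 0) {x y : K} (h : y ^ 2 = x ^ 3 + k) :
    (Cv K k).Nonsingular x y := by
  rw [Affine.nonsingular_iff, Affine.equation_iff]
  simp only [Cv]
  refine ⟨by linear_combination h, ?_⟩
  by_contra hcon
  push Not at hcon
  obtain ⟨h1, h2⟩ := hcon
  have hx : x = 0 := by
    have : x ^ 2 = 0 := by linear_combination (-1 / 3 : K) * h1
    exact pow_eq_zero_iff (by norm_num) |>.1 this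
  have hy : y = 0 := by linear_combination h2 / 2
  rw [hx, hy] at h
  apply hk
  have : (k : K) = 0 := by linear_combination -h
  exact_mod_cast this

variable [CharZero K] [DecidableEq K]

lemma dbl_some (k : ℤ) {u v : K} (h : (Cv K k).Nonsingular u v) (hv : v ≠ 0) :
    ∃ h' : (Cv K k).Nonsingular ((3 * u ^ 2 / (2 * v)) ^ 2 - 2 * u)
        ((3 * u ^ 2 / (2 * v)) * (u - ((3 * u ^ 2 / (2 * v)) ^ 2 - 2 * u)) - v),
      (2 : ℕ) • (Affine.Point.some u v h : (Cv K k).Point) = Affine.Point.some _ _ h' := by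
  have hne : v ≠ (Cv K k).negY u v := by
    rw [Cv_negY]
    intro hh
    apply hv
    have : 2 * v = 0 := by linear_combination hh
    simpa using this
  have hs : (Cv K k).slope u u v v = 3 * u ^ 2 / (2 * v) := by
    rw [Affine.slope_of_Y_ne rfl hne, Cv_negY]
    simp only [Cv]
    congr 1
    · ring
    · ring
  have hX : (Cv K k).addX u u ((Cv K k).slope u u v v) = (3 * u ^ 2 / (2 * v)) ^ 2 - 2 * u := by
    rw [hs, Affine.addX]
    simp only [Cv]
    ring
  have hY : (Cv K k).addY u u v ((Cv K k).slope u u v v) =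
      (3 * u ^ 2 / (2 * v)) * (u - ((3 * u ^ 2 / (2 * v)) ^ 2 - 2 * u)) - v := by
    rw [Affine.addY, Cv_negY, Affine.negAddY, hX, hs]
    ring
  have h1 := Affine.nonsingular_add h h fun hxy => hne hxy.right
  rw [hX, hY] at h1
  refine ⟨h1, ?_⟩
  rw [two_nsmul, Affine.Point.add_self_of_Y_ne hne]
  simp only [Affine.Point.some.injEq]
  exact ⟨hX, hY⟩

lemma dbl_zero (k : ℤ) {x : K} (h : (Cv K k).Nonsingular x 0) :
    (2 : ℕ) • (Affine.Point.some x 0 h : (Cv K k).Point) = 0 := by
  rw [two_nsmul, Affine.Point.add_self_of_Y_eq]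
  rw [Cv_negY, neg_zero]

/-- multiplication by three -/
lemma triple_some (k : ℤ) {u v : K} (h : (Cv K k).Nonsingular u v) (hv : v ≠ 0)
    (hu : u ≠ 0) (hw : u ^ 3 + 4 * k ≠ 0) :
    ∃ (x y : K) (h' : (Cv K k).Nonsingular x y),
      (3 : ℕ) • (Affine.Point.some u v h : (Cv K k).Point) = Affine.Point.some _ _ h' ∧
      x = ((u ^ 3 + 4 * k) ^ 3 - 108 * k * u ^ 6) / (9 * u ^ 2 * (u ^ 3 + 4 * k) ^ 2) ∧
      y = v * (u ^ 3 - 8 * k) * ((u ^ 3 + 4 * k) ^ 3 + 216 * k * u ^ 6) /
        (27 * u ^ 3 * (u ^ 3 + 4 * k) ^ 3) := by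
  have he := Cv_eq k h
  have hk : (k : K) = v ^ 2 - u ^ 3 := by linear_combination -he
  obtain ⟨w, hwd⟩ : ∃ w : K, w = 4 * v ^ 2 - 3 * u ^ 3 := ⟨_, rfl⟩
  have hww : u ^ 3 + 4 * k = w := by rw [hwd, hk]; ring
  rw [hww] at hw
  obtain ⟨h2, e2⟩ := dbl_some k h hv
  obtain ⟨u2, hu2⟩ : ∃ u2 : K, u2 = (3 * u ^ 2 / (2 * v)) ^ 2 - 2 * u := ⟨_, rfl⟩
  obtain ⟨v2, hv2⟩ : ∃ v2 : K, v2 = (3 * u ^ 2 / (2 * v)) * (u - u2) - v := ⟨_, rfl⟩
  have h2' : (Cv K k).Nonsingular u2 v2 := by rw [hv2, hu2]; exact h2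
  have e2' : (2 : ℕ) • (Affine.Point.some u v h : (Cv K k).Point) = Affine.Point.some u2 v2 h2' := by
    rw [e2]
    simp only [Affine.Point.some.injEq]
    exact ⟨hu2.symm, by rw [hv2, hu2]⟩
  have hd : u - u2 = 3 * u * w / (4 * v ^ 2) := by
    rw [hu2, hwd]
    field_simp
    ring
  have hne : u2 ≠ u := by
    intro hh
    rw [hh, sub_self] at hd
    have : 3 * u * w / (4 * v ^ 2) ≠ 0 := by
      apply div_ne_zero
      · exact mul_ne_zero (mul_ne_zero (by norm_num) hu) hw
      · exact mul_ne_zero (by norm_num) (pow_ne_zero 2 hv)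
    exact this hd.symm
  have hslope : (Cv K k).slope u2 u v2 v = 8 * v ^ 3 / (3 * u * w) - 3 * u ^ 2 / (2 * v) := by
    rw [Affine.slope_of_X_ne hne, hv2]
    have : u2 - u = -(3 * u * w / (4 * v ^ 2)) := by rw [← hd]; ring
    rw [this, hd]
    field_simp
    ring
  have hxx : (Cv K k).addX u2 u ((Cv K k).slope u2 u v2 v) =
      (w ^ 3 - 108 * k * u ^ 6) / (9 * u ^ 2 * w ^ 2) := by
    rw [hslope, Affine.addX, hu2, hk]
    simp only [Cv]
    field_simp
    rw [hwd]
    ring
  have hyy : (Cv K k).addY u2 u v2 ((Cv K k).slope u2 u v2 v) =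
      v * (u ^ 3 - 8 * k) * (w ^ 3 + 216 * k * u ^ 6) / (27 * u ^ 3 * w ^ 3) := by
    rw [Affine.addY, Cv_negY, Affine.negAddY, hxx, hslope, hv2]
    have hd' : u2 = u - 3 * u * w / (4 * v ^ 2) := by linear_combination -hd
    have e1 : u - u2 = 3 * u * w / (4 * v ^ 2) := hd
    rw [e1, hd', hk]
    field_simp
    rw [hwd]
    ring
  have hns := Affine.nonsingular_add h2' h fun hxy => hne hxy.left
  refine ⟨_, _, hns, ?_, ?_, ?_⟩
  · rw [show (3 : ℕ) = 2 + 1 from rfl, succ_nsmul, e2', Affine.Point.add_of_X_ne hne]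
  · rw [hxx, hww]
  · rw [hyy, hww]

/-- the points of `3 E_k(K)` are in the image of the isogeny -/
theorem triple_image {k x y : ℤ} (hk : k ≠ 0) (Q : (Cv K k).Point)
    (h : (Cv K k).Nonsingular (x : K) (y : K))
    (hQ : (3 : ℕ) • Q = Affine.Point.some (x : K) (y : K) h) : Image K k x y := by
  have hkK : (k : K) ≠ 0 := by exact_mod_cast hk
  rcases Q with _ | ⟨u, v, hq⟩
  · exfalso
    rw [← Affine.Point.zero_def, nsmul_zero] at hQ
    exact Affine.Point.some_ne_zero h hQ.symm
  · have he := Cv_eq k hq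
    by_cases hv : v = 0
    · -- a point of order two
      subst hv
      rw [show (3 : ℕ) = 2 + 1 from rfl, succ_nsmul, dbl_zero, zero_add] at hQ
      simp only [Affine.Point.some.injEq] at hQ
      obtain ⟨hx, hy⟩ := hQ
      have hk' : (k : K) = -u ^ 3 := by linear_combination -he
      have hu : u ≠ 0 := by
        rintro rfl
        apply hkK
        rw [hk']
        ring
      refine ⟨-3 * u, 0, mul_ne_zero (by norm_num) hu, ?_, ?_, ?_⟩
      · rw [hk']; ring
      · rw [← hx, hk']; ring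
      · rw [← hy]; ring
    · have hneY : v ≠ (Cv K k).negY u v := by
        rw [Cv_negY]
        intro hh
        apply hv
        have : 2 * v = 0 := by linear_combination hh
        simpa using this
      by_cases hw : u * (u ^ 3 + 4 * k) = 0
      · -- a point of order three
        exfalso
        obtain ⟨h2, e2⟩ := dbl_some k hq hv
        have hu2 : (3 * u ^ 2 / (2 * v)) ^ 2 - 2 * u = u := by
          have hv4 : v ^ 2 * 4 ≠ 0 := mul_ne_zero (pow_ne_zero 2 hv) (by norm_num)
          have e3 : (3 * u ^ 2 / (2 * v)) ^ 2 - 2 * u - u = -(3 * (u * (u ^ 3 + 4 * k))) / (v ^ 2 * 4) := by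
            have hk' : (k : K) = v ^ 2 - u ^ 3 := by linear_combination -he
            rw [hk']
            field_simp
            ring
          rw [hw] at e3
          have : (3 * u ^ 2 / (2 * v)) ^ 2 - 2 * u - u = 0 := by rw [e3]; simp
          linear_combination this
        have hthree : (3 : ℕ) • (Affine.Point.some u v hq : (Cv K k).Point) = 0 := by
          rw [show (3 : ℕ) = 2 + 1 from rfl, succ_nsmul, e2]
          apply Affine.Point.add_of_Y_eq
          · exact hu2
          · rw [Cv_negY, hu2]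
            ring
        rw [hthree] at hQ
        exact Affine.Point.some_ne_zero h hQ.symm
      · have hu : u ≠ 0 := left_ne_zero_of_mul hw
        have hw' : u ^ 3 + 4 * (k : K) ≠ 0 := right_ne_zero_of_mul hw
        obtain ⟨x', y', h', e3, ex, ey⟩ := triple_some k hq hv hu hw'
        rw [e3] at hQ
        simp only [Affine.Point.some.injEq] at hQ
        obtain ⟨hx, hy⟩ := hQ
        rw [hx] at ex
        rw [hy] at ey
        have hk' : (k : K) = v ^ 2 - u ^ 3 := by linear_combination -he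
        refine ⟨(u ^ 3 + 4 * k) / u ^ 2, v * (u ^ 3 - 8 * k) / u ^ 3, div_ne_zero hw' (pow_ne_zero 2 hu),
          ?_, ?_, ?_⟩
        · field_simp
          rw [he]
          ring
        · rw [ex]
          field_simp
        · rw [ey]
          field_simp

end

end Pool.Agent.K7.H59.HL
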