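import Pool.Agent.K7.H59.HL.D

/-!
# The bounds and the examples

Helper file (helper59) for MP_f2148a_nt.
-/

set_option autoImplicit false

namespace Pool.Agent.K7.H59.HL

theorem x_bound (K : Type*) [Field K] [NumberField K] (ε : ℝ) (hε : 0 < ε) :
    ∃ C : ℝ, 1 ≤ C ∧ ∀ k x y : ℤ, k ≠ 0 → y ^ 2 = x ^ 3 + k →
      (∃ τ : K, τ ^ 3 - 3 * x * τ + 2 * y = 0) → |(x : ℝ)| ≤ C * |(k : ℝ)| ^ (1 + ε) := by
  obtain ⟨C0, h0⟩ := irr_bound K (ε / (1 + ε)) (by positivity)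
  refine ⟨2 + (max C0 0) ^ (1 + ε), by
    have : 0 ≤ (max C0 0) ^ (1 + ε) := by positivity
    linarith, fun k x y hk hE hτ => ?_⟩
  have hK : (1 : ℝ) ≤ |(k : ℝ)| := by exact_mod_cast Int.one_le_abs hk
  have hKe : |(k : ℝ)| ≤ |(k : ℝ)| ^ (1 + ε) := by
    calc |(k : ℝ)| = |(k : ℝ)| ^ (1 : ℝ) := (Real.rpow_one _).symm
      _ ≤ _ := Real.rpow_le_rpow_of_exponent_le hK (by linarith)
  have hpos : 0 ≤ (max C0 0) ^ (1 + ε) := by positivity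
  by_cases hc : |x| ≤ 2 * |k|
  · have h1 : |(x : ℝ)| ≤ 2 * |(k : ℝ)| := by exact_mod_cast hc
    nlinarith
  · push Not at hc
    have hirr : ∀ r : ℚ, r ^ 3 - 3 * x * r + 2 * y ≠ 0 := by
      intro r hr
      have := rat_root hk hE hr
      omega
    obtain ⟨hx0, hx⟩ := h0 k x y hk hE hc hirr hτ
    have hx' : (0 : ℝ) < x := by exact_mod_cast hx0
    rw [abs_of_pos hx']
    obtain ⟨η, hη⟩ : ∃ η : ℝ, η = ε / (1 + ε) := ⟨_, rfl⟩
    rw [← hη] at hx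
    have h1η : (1 - η) * (1 + ε) = 1 := by rw [hη]; field_simp; ring
    have h1 : (x : ℝ) ^ (1 - η) ≤ max C0 0 * |(k : ℝ)| := by
      rw [Real.rpow_sub hx', Real.rpow_one, div_le_iff₀ (by positivity)]
      calc (x : ℝ) ≤ C0 * (x : ℝ) ^ η * |(k : ℝ)| := hx
        _ ≤ max C0 0 * (x : ℝ) ^ η * |(k : ℝ)| := by
          apply mul_le_mul_of_nonneg_right _ (abs_nonneg _)
          exact mul_le_mul_of_nonneg_right (le_max_left _ _) (by positivity)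
        _ = _ := by ring
    have h2 : (x : ℝ) = ((x : ℝ) ^ (1 - η)) ^ (1 + ε) := by
      rw [← Real.rpow_mul hx'.le, h1η, Real.rpow_one]
    rw [h2]
    calc ((x : ℝ) ^ (1 - η)) ^ (1 + ε) ≤ (max C0 0 * |(k : ℝ)|) ^ (1 + ε) :=
          Real.rpow_le_rpow (by positivity) h1 (by positivity)
      _ = (max C0 0) ^ (1 + ε) * |(k : ℝ)| ^ (1 + ε) :=
          Real.mul_rpow (by positivity) (by positivity)
      _ ≤ _ := by nlinarith

theorem xy_bound (K : Type*) [Field K] [NumberField K] (ε : ℝ) (hε : 0 < ε) :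
    ∃ C : ℝ, ∀ k x y : ℤ, k ≠ 0 → y ^ 2 = x ^ 3 + k →
      (∃ τ : K, τ ^ 3 - 3 * x * τ + 2 * y = 0) →
      |(x : ℝ)| ≤ C * |(k : ℝ)| ^ (1 + ε) ∧ |(y : ℝ)| ≤ C * |(k : ℝ)| ^ (3 / 2 + ε) := by
  obtain ⟨C, hC, h⟩ := x_bound K (2 * ε / 3) (by positivity)
  refine ⟨C ^ 3 + 1, fun k x y hk hE hτ => ?_⟩
  have hx := h k x y hk hE hτ
  have hER : (y : ℝ) ^ 2 = (x : ℝ) ^ 3 + k := by exact_mod_cast hE
  have hK : (1 : ℝ) ≤ |(k : ℝ)| := by exact_mod_cast Int.one_le_abs hk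
  obtain ⟨T, hT⟩ : ∃ T, T = |(k : ℝ)| ^ (1 + 2 * ε / 3) := ⟨_, rfl⟩
  rw [← hT] at hx
  have hC3 : C ≤ C ^ 3 := by nlinarith [mul_le_mul hC hC zero_le_one (by linarith)]
  constructor
  · have h1 : T ≤ |(k : ℝ)| ^ (1 + ε) := by
      rw [hT]
      exact Real.rpow_le_rpow_of_exponent_le hK (by linarith)
    have h0 : 0 ≤ T := by rw [hT]; positivity
    calc |(x : ℝ)| ≤ C * T := hx
      _ ≤ (C ^ 3 + 1) * T := by nlinarith
      _ ≤ _ := mul_le_mul_of_nonneg_left h1 (by positivity)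
  · have h0 : 0 ≤ T := by rw [hT]; positivity
    have hKT : |(k : ℝ)| ≤ T := by
      calc |(k : ℝ)| = |(k : ℝ)| ^ (1 : ℝ) := (Real.rpow_one _).symm
        _ ≤ _ := by rw [hT]; exact Real.rpow_le_rpow_of_exponent_le hK (by linarith)
    have hT1 : 1 ≤ T := hK.trans hKT
    have hU : (|(k : ℝ)| ^ (3 / 2 + ε)) ^ 2 = T ^ 3 := by
      rw [hT, ← Real.rpow_natCast, ← Real.rpow_natCast, ← Real.rpow_mul (by positivity),
        ← Real.rpow_mul (by positivity)]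
      congr 1
      push_cast
      ring
    have h1 : (x : ℝ) ^ 3 ≤ (C * T) ^ 3 := by
      calc (x : ℝ) ^ 3 ≤ |(x : ℝ)| ^ 3 := by rw [← abs_pow]; exact le_abs_self _
        _ ≤ _ := pow_le_pow_left₀ (abs_nonneg _) hx 3
    have h2 : (k : ℝ) ≤ T ^ 3 := by
      calc (k : ℝ) ≤ |(k : ℝ)| := le_abs_self _
        _ ≤ T := hKT
        _ ≤ T ^ 3 := by nlinarith [mul_le_mul hT1 hT1 zero_le_one (by linarith)]
    apply abs_le_of_sq_le_sq _ (by positivity)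
    rw [mul_pow, hU, hER]
    have h3 : (C * T) ^ 3 = C ^ 3 * T ^ 3 := by ring
    have hT3 : 0 ≤ T ^ 3 := by positivity
    have hC4 : 1 ≤ C ^ 3 := hC.trans hC3
    rw [h3] at h1
    nlinarith [mul_nonneg hT3 (sub_nonneg.2 hC4)]

theorem image_iff {K : Type*} [Field K] [CharZero K] {k x y : ℤ} (hk : k ≠ 0)
    (hE : y ^ 2 = x ^ 3 + k) :
    Image K k x y ↔ ∃ τ : K, τ ^ 3 - 3 * x * τ + 2 * y = 0 := by
  refine ⟨Image.root, ?_⟩
  rintro ⟨t, ht⟩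
  have hkK : (k : K) ≠ 0 := by exact_mod_cast hk
  have hEK : (y : K) ^ 2 = (x : K) ^ 3 + k := by exact_mod_cast hE
  have h4 : 4 * (k : K) = (t ^ 2 - 4 * x) * (x - t ^ 2) ^ 2 := by
    have h5 : 2 * (y : K) = 3 * x * t - t ^ 3 := by linear_combination ht
    have h7 : 4 * (k : K) = (2 * (y : K)) ^ 2 - 4 * (x : K) ^ 3 := by linear_combination -4 * hEK
    rw [h7, h5]
    ring
  have hy : (y : K) = (3 * x * t - t ^ 3) / 2 := by
    rw [eq_div_iff (by norm_num)]; linear_combination ht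
  have hk4 : (k : K) = (t ^ 2 - 4 * x) * (x - t ^ 2) ^ 2 / 4 := by
    rw [eq_div_iff (by norm_num)]; linear_combination h4
  refine ⟨3 * (t ^ 2 - x), -(9 / 2) * (t ^ 2 - x) * t, ?_, ?_, ?_, ?_⟩
  · intro h0
    apply hkK
    have : x - t ^ 2 = 0 := by
      have h3 : (3 : K) ≠ 0 := by norm_num
      have := (mul_eq_zero.1 h0).resolve_left h3
      linear_combination -this
    rw [hk4, this]
    ring
  · rw [hk4]; ring
  · rw [hk4]; ring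
  · rw [hk4, hy]; ring

/-- the examples: points of `3 E_k(ℚ)` with `|x| ≥ |k|` -/
theorem examples (N : ℤ) : ∃ k x y : ℤ, k ≠ 0 ∧ N ≤ |x| ∧
    (∃ (Q : (Cv ℚ k).Point) (h : (Cv ℚ k).Nonsingular (x : ℚ) (y : ℚ)),
      (3 : ℕ) • Q = WeierstrassCurve.Affine.Point.some (x : ℚ) (y : ℚ) h) ∧
    |k| ≤ |x| ∧ |k| ^ 3 ≤ y ^ 2 := by
  obtain ⟨j, hj⟩ : ∃ j : ℤ, j = |N| + 1 := ⟨_, rfl⟩
  have hj1 : 1 ≤ j := by rw [hj]; have := abs_nonneg N; omega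
  have hjN : N ≤ j := by rw [hj]; have := le_abs_self N; omega
  obtain ⟨k, hk⟩ : ∃ k : ℤ, k = -((12 * j ^ 2 + 1) ^ 2 * (3 * j ^ 2 + 1)) := ⟨_, rfl⟩
  obtain ⟨x, hx⟩ : ∃ x : ℤ, x = 36 * j ^ 2 * (4 * j ^ 2 + 1) ^ 2 + 1 := ⟨_, rfl⟩
  obtain ⟨y, hy⟩ : ∃ y : ℤ, y = j * (4 * j ^ 2 + 1) * (1 - 8 * k) := ⟨_, rfl⟩
  have hj2 : 1 ≤ j ^ 2 := by nlinarith
  have hkneg : k < 0 := by rw [hk]; nlinarith [mul_pos (show (0 : ℤ) < (12 * j ^ 2 + 1) ^ 2 by positivity) (show (0 : ℤ) < 3 * j ^ 2 + 1 by positivity)]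
  have hk0 : k ≠ 0 := hkneg.ne
  have hxk : 3 * x = -(4 * k) - 1 := by rw [hx, hk]; ring
  have hbig : 4 ≤ -k := by
    rw [hk]
    have : 13 ≤ 12 * j ^ 2 + 1 := by linarith
    have h2 : 13 ^ 2 ≤ (12 * j ^ 2 + 1) ^ 2 := pow_le_pow_left₀ (by norm_num) this 2
    nlinarith
  have hE : y ^ 2 = x ^ 3 + k := by rw [hy, hx, hk]; ring
  have hx0 : 0 < x := by rw [hx]; positivity
  have hxk1 : -k + 1 ≤ x := by omega
  refine ⟨k, x, y, hk0, ?_, ?_, ?_, ?_⟩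
  · rw [abs_of_pos hx0, hx]
    nlinarith [mul_pos (show (0 : ℤ) < j ^ 2 by positivity) (show (0 : ℤ) < (4 * j ^ 2 + 1) ^ 2 by positivity), show (1 : ℤ) ≤ (4 * j ^ 2 + 1) ^ 2 by nlinarith]
  · obtain ⟨u, hu⟩ : ∃ u : ℚ, u = 12 * (j : ℚ) ^ 2 + 1 := ⟨_, rfl⟩
    have hu0 : u ≠ 0 := by rw [hu]; positivity
    have hjq : (j : ℚ) ≠ 0 := by
      have : j ≠ 0 := by omega
      exact_mod_cast this
    have hkq : (k : ℚ) = -(u ^ 2 * (3 * (j : ℚ) ^ 2 + 1)) := by rw [hk, hu]; push_cast; ring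
    have hQ : (3 * (j : ℚ) * u) ^ 2 = u ^ 3 + k := by rw [hkq, hu]; ring
    have hv : 3 * (j : ℚ) * u ≠ 0 := mul_ne_zero (mul_ne_zero (by norm_num) hjq) hu0
    have hw : u ^ 3 + 4 * (k : ℚ) = -3 * u ^ 2 := by rw [hkq, hu]; ring
    have hw0 : u ^ 3 + 4 * (k : ℚ) ≠ 0 := by
      rw [hw]; exact mul_ne_zero (by norm_num) (pow_ne_zero 2 hu0)
    obtain ⟨x', y', h', e3, ex, ey⟩ := triple_some k (Cv_nonsingular k hk0 hQ) hv hu0 hw0
    have hxx : x' = (x : ℚ) := by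
      rw [ex, hw]
      have h3 : (3 : ℚ) * x = -(4 * k) - 1 := by exact_mod_cast hxk
      have h3' : (x : ℚ) = (-(4 * k) - 1) / 3 := by linear_combination h3 / 3
      rw [h3']
      field_simp
      ring
    have hyy : y' = (y : ℚ) := by
      rw [ey, hw]
      have h3 : (y : ℚ) = j * (4 * j ^ 2 + 1) * (1 - 8 * k) := by rw [hy]; push_cast; ring
      have h8 : u ^ 3 - 8 * (k : ℚ) = 9 * u ^ 2 * (4 * (j : ℚ) ^ 2 + 1) := by rw [hkq, hu]; ring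
      rw [h3, h8]
      field_simp
      ring
    subst hxx hyy
    exact ⟨_, h', e3⟩
  · rw [abs_of_neg hkneg, abs_of_pos hx0]
    omega
  · rw [abs_of_neg hkneg, hE]
    have h1 : (-k + 1) ^ 3 ≤ x ^ 3 := pow_le_pow_left₀ (by omega) hxk1 3
    nlinarith

end Pool.Agent.K7.H59.HL
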